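import Mathlib

/-!
# MP_87e037_al

Existence of a nonzero lowering map.
-/

namespace Pool.Agent.Results.MP_87e037_al.LoweringMap

open Polynomial

/-- `τ_i = ∏_{h<i} (λ - θ_h)` -/
noncomputable def tau {K : Type*} [Field K] (θ : ℕ → K) (i : ℕ) : K[X] :=
  ∏ h ∈ Finset.range i, (X - C (θ h))

/-- `ρ_i = ∏_{h<i} (λ - θ_{d-h})` -/
noncomputable def rho {K : Type*} [Field K] (θ : ℕ → K) (d i : ℕ) : K[X] :=
  ∏ h ∈ Finset.range i, (X - C (θ (d - h)))

/-- `Ψ` is a lowering map on the space of polynomials of degree at most `d`. -/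
def IsLowering {K : Type*} [Field K] (θ : ℕ → K) (d : ℕ)
    (Ψ : degreeLE K d →ₗ[K] degreeLE K d) : Prop :=
  (∀ p : degreeLE K d, (p : K[X]) = tau θ 0 → Ψ p = 0) ∧
  (∀ p : degreeLE K d, (p : K[X]) = rho θ d 0 → Ψ p = 0) ∧
  (∀ i, 1 ≤ i → i ≤ d → ∀ p : degreeLE K d, (p : K[X]) = tau θ i →
    (Ψ p : K[X]) ∈ Submodule.span K {tau θ (i - 1)}) ∧
  (∀ i, 1 ≤ i → i ≤ d → ∀ p : degreeLE K d, (p : K[X]) = rho θ d i →
    (Ψ p : K[X]) ∈ Submodule.span K {rho θ d (i - 1)})

section ring

variable {R : Type*} [CommRing R]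

/-- the sequences with `θ_{n+3} = θ_n + (β+1)(θ_{n+2} - θ_{n+1})` -/
def sq (a b c β : R) : ℕ → R
  | 0 => a
  | 1 => b
  | 2 => c
  | (n + 3) => sq a b c β n + (β + 1) * (sq a b c β (n + 2) - sq a b c β (n + 1))

theorem map_sq {S : Type*} [CommRing S] (f : R →+* S) (a b c β : R) :
    ∀ n, f (sq a b c β n) = sq (f a) (f b) (f c) (f β) n
  | 0 => rfl
  | 1 => rfl
  | 2 => rfl
  | (n + 3) => by
    simp only [sq, map_add, map_mul, map_sub, map_one, map_sq f a b c β n,
      map_sq f a b c β (n + 1), map_sq f a b c β (n + 2)]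

theorem sq_int : ∀ n : ℕ, sq (0 : ℤ) 1 2 2 n = n
  | 0 => rfl
  | 1 => rfl
  | 2 => rfl
  | (n + 3) => by
    simp only [sq, sq_int n, sq_int (n + 1), sq_int (n + 2)]
    push_cast
    ring

/-- `D_j = ∑_{h<j} (θ_h - θ_{d-h})` -/
def D (θ : ℕ → R) (d j : ℕ) : R := ∑ h ∈ Finset.range j, (θ h - θ (d - h))

/-- coefficients of `ρ_i` in the basis `τ_j` -/
def cf (θ : ℕ → R) (d : ℕ) : ℕ → ℕ → R
  | 0, 0 => 1
  | 0, (_ + 1) => 0
  | (i + 1), 0 => (θ 0 - θ (d - i)) * cf θ d i 0
  | (i + 1), (j + 1) => cf θ d i j + (θ (j + 1) - θ (d - i)) * cf θ d i (j + 1)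

theorem map_D {S : Type*} [CommRing S] (f : R →+* S) (θ : ℕ → R) (d j : ℕ) :
    f (D θ d j) = D (fun n => f (θ n)) d j := by
  simp [D]

theorem map_cf {S : Type*} [CommRing S] (f : R →+* S) (θ : ℕ → R) (d : ℕ) :
    ∀ i j, f (cf θ d i j) = cf (fun n => f (θ n)) d i j
  | 0, 0 => by simp [cf]
  | 0, (_ + 1) => by simp [cf]
  | (i + 1), 0 => by simp [cf, map_cf f θ d i 0]
  | (i + 1), (j + 1) => by simp [cf, map_cf f θ d i j, map_cf f θ d i (j + 1)]

theorem cf_zero (θ : ℕ → R) (d : ℕ) : ∀ i j, i < j → cf θ d i j = 0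
  | 0, 0, h => by omega
  | 0, (_ + 1), _ => rfl
  | (i + 1), 0, h => by omega
  | (i + 1), (j + 1), h => by
    rw [cf, cf_zero θ d i j (by omega), cf_zero θ d i (j + 1) (by omega)]
    ring

/-- `v_0 = 1`, `v_1 = β + 1` -/
def vv (β : R) : ℕ → R
  | 0 => 1
  | 1 => β + 1
  | (n + 2) => β * vv β (n + 1) - vv β n

/-- `w_0 = 0`, `w_1 = 1` -/
def ww (β : R) : ℕ → R
  | 0 => 0
  | 1 => 1
  | (n + 2) => β * ww β (n + 1) - ww β n

variable (a b c β : R)

theorem gam (n : ℕ) : sq a b c β (n + 2) - β * sq a b c β (n + 1) + sq a b c β n =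
    sq a b c β 2 - β * sq a b c β 1 + sq a b c β 0 := by
  induction n with
  | zero => rfl
  | succ n ih =>
    rw [← ih]
    have : sq a b c β (n + 1 + 2) =
      sq a b c β n + (β + 1) * (sq a b c β (n + 2) - sq a b c β (n + 1)) := rfl
    rw [this]
    ring

theorem odd_diff (m : ℕ) : ∀ j, j ≤ m → sq a b c β (m + 1 + j) - sq a b c β (m - j) =
    vv β j * (sq a b c β (m + 1) - sq a b c β m)
  | 0, _ => by simp [vv]
  | 1, h => by
    obtain ⟨k, rfl⟩ : ∃ k, m = k + 1 := ⟨m - 1, by omega⟩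
    have : sq a b c β (k + 1 + 1 + 1) =
      sq a b c β k + (β + 1) * (sq a b c β (k + 2) - sq a b c β (k + 1)) := rfl
    rw [this, Nat.add_sub_cancel, vv]
    ring
  | (j + 2), h => by
    obtain ⟨k, rfl⟩ : ∃ k, m = k + (j + 2) := ⟨m - (j + 2), by omega⟩
    have h1 := odd_diff (k + (j + 2)) (j + 1) (by omega)
    have h0 := odd_diff (k + (j + 2)) j (by omega)
    have g1 := gam a b c β (k + (j + 2) + 1 + j)
    have g2 := gam a b c β k
    have e1 : k + (j + 2) - (j + 1) = k + 1 := by omega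
    have e0 : k + (j + 2) - j = k + 2 := by omega
    have e2 : k + (j + 2) - (j + 2) = k := by omega
    have e3 : k + (j + 2) + 1 + (j + 2) = k + (j + 2) + 1 + j + 2 := by omega
    have e4 : k + (j + 2) + 1 + (j + 1) = k + (j + 2) + 1 + j + 1 := by omega
    rw [e1, e4] at h1
    rw [e0] at h0
    rw [e2, e3, vv]
    linear_combination β * h1 - h0 + g1 - g2

theorem even_diff (m : ℕ) : ∀ j, j ≤ m → sq a b c β (m + j) - sq a b c β (m - j) =
    ww β j * (sq a b c β (m + 1) - sq a b c β (m - 1))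
  | 0, _ => by simp [ww]
  | 1, h => by simp [ww]
  | (j + 2), h => by
    obtain ⟨k, rfl⟩ : ∃ k, m = k + (j + 2) := ⟨m - (j + 2), by omega⟩
    have h1 := even_diff (k + (j + 2)) (j + 1) (by omega)
    have h0 := even_diff (k + (j + 2)) j (by omega)
    have g1 := gam a b c β (k + (j + 2) + j)
    have g2 := gam a b c β k
    have e1 : k + (j + 2) - (j + 1) = k + 1 := by omega
    have e0 : k + (j + 2) - j = k + 2 := by omega
    have e2 : k + (j + 2) - (j + 2) = k := by omega
    have e3 : k + (j + 2) + (j + 2) = k + (j + 2) + j + 2 := by omega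
    have e4 : k + (j + 2) + (j + 1) = k + (j + 2) + j + 1 := by omega
    rw [e1, e4] at h1
    rw [e0] at h0
    rw [e2, e3, ww]
    linear_combination β * h1 - h0 + g1 - g2

/-- the `V` function on natural numbers -/
def V0 (k : ℕ) : R := if k % 2 = 0 then ww β (k / 2) else vv β (k / 2)

theorem diff_nat : ∃ X : ℕ → R, ∀ s r, sq a b c β (s + r) - sq a b c β s = V0 β r * X (2 * s + r) := by
  refine ⟨fun t => if t % 2 = 0 then sq a b c β (t / 2 + 1) - sq a b c β (t / 2 - 1)
    else sq a b c β (t / 2 + 1) - sq a b c β (t / 2), fun s r => ?_⟩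
  rcases Nat.even_or_odd' r with ⟨j, rfl | rfl⟩
  · have h := even_diff a b c β (s + j) j (by omega)
    have e1 : s + j + j = s + 2 * j := by omega
    have e2 : s + j - j = s := by omega
    have e3 : (2 * s + 2 * j) / 2 = s + j := by omega
    have e4 : (2 * s + 2 * j) % 2 = 0 := by omega
    have e5 : 2 * j % 2 = 0 := by omega
    have e6 : 2 * j / 2 = j := by omega
    rw [e1, e2] at h
    simp only [V0, e3, e4, e5, e6, if_true]
    exact h
  · have h := odd_diff a b c β (s + j) j (by omega)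
    have e1 : s + j + 1 + j = s + (2 * j + 1) := by omega
    have e2 : s + j - j = s := by omega
    have e3 : (2 * s + (2 * j + 1)) / 2 = s + j := by omega
    have e4 : ¬ (2 * s + (2 * j + 1)) % 2 = 0 := by omega
    have e5 : ¬ (2 * j + 1) % 2 = 0 := by omega
    have e6 : (2 * j + 1) / 2 = j := by omega
    rw [e1, e2] at h
    simp only [V0, e3, e4, e5, e6, if_false]
    exact h

theorem diff_int : ∃ (V : ℤ → R) (X : ℕ → R), ∀ p q : ℕ,
    sq a b c β p - sq a b c β q = V ((p : ℤ) - q) * X (p + q) := by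
  obtain ⟨X, hX⟩ := diff_nat a b c β
  refine ⟨fun k => if 0 ≤ k then V0 β k.toNat else - V0 β (-k).toNat, X, fun p q => ?_⟩
  rcases le_or_gt q p with h | h
  · obtain ⟨r, rfl⟩ := Nat.exists_eq_add_of_le h
    have := hX q r
    have e : (((q + r : ℕ) : ℤ) - q) = r := by push_cast; ring
    simp only [e]
    rw [if_pos (Int.natCast_nonneg r), Int.toNat_natCast, this]
    congr 2
    omega
  · obtain ⟨r, rfl⟩ := Nat.exists_eq_add_of_le h.le
    have := hX p r
    have hr : 0 < r := by omega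
    have e : ((p : ℤ) - ((p + r : ℕ) : ℤ)) = -(r : ℤ) := by push_cast; ring
    simp only [e]
    rw [if_neg (by omega), neg_neg, Int.toNat_natCast]
    have e2 : 2 * p + r = p + (p + r) := by omega
    rw [e2] at this
    linear_combination -this

theorem key_id {p q s t h : ℕ} (hs : p + q = s + t) :
    (sq a b c β (p + h) - sq a b c β (q + h)) * (sq a b c β s - sq a b c β t) =
      (sq a b c β (s + h) - sq a b c β (t + h)) * (sq a b c β p - sq a b c β q) := by
  obtain ⟨V, X, hV⟩ := diff_int a b c β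
  rw [hV, hV, hV, hV, hs]
  have e1 : ((p + h : ℕ) : ℤ) - ((q + h : ℕ) : ℤ) = (p : ℤ) - q := by push_cast; ring
  have e2 : ((s + h : ℕ) : ℤ) - ((t + h : ℕ) : ℤ) = (s : ℤ) - t := by push_cast; ring
  have e3 : p + h + (q + h) = s + h + (t + h) := by omega
  rw [e1, e2, e3]
  ring

theorem key_D {d j m : ℕ} (h : j + m ≤ d) :
    (D (sq a b c β) d (j + m + 1) - D (sq a b c β) d j) *
        (sq a b c β 0 - sq a b c β (d - m)) =
      D (sq a b c β) d (m + 1) * (sq a b c β j - sq a b c β (d - (j + m))) := by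
  set θ := sq a b c β with hθ
  have h1 : D θ d (j + m + 1) - D θ d j =
      ∑ x ∈ Finset.range (m + 1), (θ (j + x) - θ (d - (j + m) + x)) := by
    rw [D, D, add_assoc, Finset.sum_range_add, add_sub_cancel_left, Finset.sum_sub_distrib,
      Finset.sum_sub_distrib]
    congr 1
    rw [← Finset.sum_range_reflect]
    refine Finset.sum_congr rfl fun x hx => ?_
    have := Finset.mem_range.mp hx
    congr 1
    omega
  have h2 : D θ d (m + 1) = ∑ x ∈ Finset.range (m + 1), (θ (0 + x) - θ (d - m + x)) := by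
    rw [D, Finset.sum_sub_distrib, Finset.sum_sub_distrib]
    congr 1
    · simp
    · rw [← Finset.sum_range_reflect]
      refine Finset.sum_congr rfl fun x hx => ?_
      have := Finset.mem_range.mp hx
      congr 1
      omega
  rw [h1, h2, Finset.sum_mul, Finset.sum_mul]
  refine Finset.sum_congr rfl fun x _ => ?_
  exact key_id a b c β (by omega)

/-- the factorials of the `D_j` -/
def Df (θ : ℕ → R) (d n : ℕ) : R := ∏ k ∈ Finset.range n, D θ d (k + 1)

/-- the product of the `θ_0 - θ_{d-h}` -/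
def Pf (θ : ℕ → R) (d n : ℕ) : R := ∏ h ∈ Finset.range n, (θ 0 - θ (d - h))

theorem cf_diag (θ : ℕ → R) (d : ℕ) : ∀ i, cf θ d i i = 1
  | 0 => rfl
  | (i + 1) => by
    rw [cf, cf_diag θ d i, cf_zero θ d i (i + 1) (by omega)]
    ring

theorem cf_first (θ : ℕ → R) (d : ℕ) : ∀ i, cf θ d i 0 = Pf θ d i
  | 0 => by simp [cf, Pf]
  | (i + 1) => by
    rw [cf, cf_first θ d i, Pf, Pf, Finset.prod_range_succ]
    ring

theorem cf_prod (d : ℕ) : ∀ i, i ≤ d → ∀ j m, j + m = i →
    cf (sq a b c β) d (j + m) j * (Df (sq a b c β) d j * Df (sq a b c β) d m) =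
      Df (sq a b c β) d (j + m) * Pf (sq a b c β) d m := by
  intro i
  induction i with
  | zero =>
    intro _ j m h
    have hj : j = 0 := by omega
    have hm : m = 0 := by omega
    subst hj hm
    simp [cf, Df, Pf]
  | succ i ih =>
    intro hi j m h
    rcases j with _ | j
    · rw [zero_add, cf_first]
      simp [Df]
      ring
    · rcases m with _ | m
      · rw [add_zero, cf_diag]
        simp [Df, Pf]
      · have ih1 := ih (by omega) j (m + 1) (by omega)
        have ih2 := ih (by omega) (j + 1) m (by omega)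
        have hk := key_D a b c β (d := d) (j := j + 1) (m := m) (by omega)
        set θ := sq a b c β with hθ
        have e1 : j + 1 + (m + 1) = (j + (m + 1)) + 1 := by omega
        have e2 : j + 1 + m = j + (m + 1) := by omega
        rw [e2] at ih2 hk
        rw [e1, cf]
        have s1 : Df θ d (j + 1) = Df θ d j * D θ d (j + 1) := Finset.prod_range_succ _ _
        have s2 : Df θ d (m + 1) = Df θ d m * D θ d (m + 1) := Finset.prod_range_succ _ _
        have s3 : Df θ d (j + (m + 1) + 1) = Df θ d (j + (m + 1)) * D θ d (j + (m + 1) + 1) :=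
          Finset.prod_range_succ _ _
        have s4 : Pf θ d (m + 1) = Pf θ d m * (θ 0 - θ (d - m)) := Finset.prod_range_succ _ _
        rw [s3, s4, s1, s2]
        rw [s2, s4] at ih1
        rw [s1] at ih2
        linear_combination (D θ d (j + 1)) * ih1 +
          ((θ (j + 1) - θ (d - (j + (m + 1)))) * D θ d (m + 1)) * ih2 -
          (Df θ d (j + (m + 1)) * Pf θ d m) * hk

end ring

/-! ### The generic identity -/

theorem D_int (d j : ℕ) (hj : j ≤ d + 1) :
    D (fun n : ℕ => (n : ℤ)) d j = (j : ℤ) * (j - 1 - d) := by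
  induction j with
  | zero => simp [D]
  | succ j ih =>
    rw [D, Finset.sum_range_succ, ← D, ih (by omega)]
    have : ((d - j : ℕ) : ℤ) = (d : ℤ) - j := by
      rw [Nat.cast_sub (by omega)]
    rw [this]
    push_cast
    ring

/-- the generic ring -/
abbrev GR : Type := MvPolynomial (Fin 4) ℤ

/-- the generic sequence -/
noncomputable def gs : ℕ → GR :=
  sq (MvPolynomial.X 0) (MvPolynomial.X 1) (MvPolynomial.X 2) (MvPolynomial.X 3)

theorem gs_D_ne (d j : ℕ) (h1 : 1 ≤ j) (h2 : j ≤ d) : D gs d j ≠ 0 := by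
  intro h
  have h3 := congrArg (MvPolynomial.eval ![(0 : ℤ), 1, 2, 2]) h
  rw [map_D, map_zero] at h3
  have e : (fun n => MvPolynomial.eval ![(0 : ℤ), 1, 2, 2] (gs n)) = fun n : ℕ => (n : ℤ) := by
    funext n
    rw [gs, map_sq]
    simp only [MvPolynomial.eval_X]
    exact sq_int n
  rw [e, D_int d j (by omega)] at h3
  rcases mul_eq_zero.mp h3 with h4 | h4 <;> omega

theorem gs_Df_ne (d n : ℕ) (h : n ≤ d) : Df gs d n ≠ 0 := by
  rw [Df, Finset.prod_ne_zero_iff]
  intro k hk
  have := Finset.mem_range.mp hk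
  exact gs_D_ne d (k + 1) (by omega) (by omega)

theorem generic {d i j : ℕ} (hi : i + 1 ≤ d) :
    cf gs d (i + 1) (j + 1) * D gs d (j + 1) = D gs d (i + 1) * cf gs d i j := by
  rcases lt_or_ge i j with h | h
  · rw [cf_zero _ _ _ _ h, cf_zero _ _ _ _ (by omega)]
    ring
  · obtain ⟨m, rfl⟩ := Nat.exists_eq_add_of_le h
    have h1 := cf_prod (MvPolynomial.X 0 : GR) (MvPolynomial.X 1) (MvPolynomial.X 2)
      (MvPolynomial.X 3) d (j + m + 1) hi (j + 1) m (by omega)
    have h2 := cf_prod (MvPolynomial.X 0 : GR) (MvPolynomial.X 1) (MvPolynomial.X 2)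
      (MvPolynomial.X 3) d (j + m) (by omega) j m rfl
    rw [← gs] at h1 h2
    have e1 : j + 1 + m = j + m + 1 := by omega
    rw [e1] at h1
    have s1 : Df gs d (j + 1) = Df gs d j * D gs d (j + 1) := Finset.prod_range_succ _ _
    have s3 : Df gs d (j + m + 1) = Df gs d (j + m) * D gs d (j + m + 1) :=
      Finset.prod_range_succ _ _
    rw [s1, s3] at h1
    have hne : Df gs d j * Df gs d m ≠ 0 :=
      mul_ne_zero (gs_Df_ne d j (by omega)) (gs_Df_ne d m (by omega))
    apply mul_right_cancel₀ hne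
    linear_combination h1 - D gs d (j + m + 1) * h2

theorem special {K : Type*} [Field K] (a b c β : K) {d i j : ℕ} (hi : i + 1 ≤ d) :
    cf (sq a b c β) d (i + 1) (j + 1) * D (sq a b c β) d (j + 1) =
      D (sq a b c β) d (i + 1) * cf (sq a b c β) d i j := by
  let f : GR →+* K := MvPolynomial.eval₂Hom (Int.castRingHom K) ![a, b, c, β]
  have h := congrArg f (generic (i := i) (j := j) hi)
  rw [map_mul, map_mul, map_D, map_D, map_cf, map_cf] at h
  have e : (fun n => f (gs n)) = sq a b c β := by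
    funext n
    rw [gs, map_sq]
    simp [f]
  rw [e] at h
  exact h

/-! ### The lowering map -/

section final

variable {K : Type*} [Field K]

theorem D_congr {θ θ' : ℕ → K} {d : ℕ} (h : ∀ i ≤ d, θ i = θ' i) {j : ℕ} (hj : j ≤ d + 1) :
    D θ d j = D θ' d j := by
  refine Finset.sum_congr rfl fun x hx => ?_
  have := Finset.mem_range.mp hx
  rw [h x (by omega), h (d - x) (by omega)]

theorem rho_congr {θ θ' : ℕ → K} {d : ℕ} (h : ∀ i ≤ d, θ i = θ' i) (i : ℕ) :
    rho θ d i = rho θ' d i :=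
  Finset.prod_congr rfl fun x _ => by rw [h (d - x) (by omega)]

theorem tau_congr {θ θ' : ℕ → K} {d : ℕ} (h : ∀ i ≤ d, θ i = θ' i) {i : ℕ} (hi : i ≤ d) :
    tau θ i = tau θ' i :=
  Finset.prod_congr rfl fun x hx => by
    have := Finset.mem_range.mp hx
    rw [h x (by omega)]

theorem tau_succ (θ : ℕ → K) (i : ℕ) : tau θ (i + 1) = tau θ i * (X - C (θ i)) :=
  Finset.prod_range_succ _ _

theorem rho_succ (θ : ℕ → K) (d i : ℕ) : rho θ d (i + 1) = rho θ d i * (X - C (θ (d - i))) :=
  Finset.prod_range_succ _ _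

theorem rho_expand (θ : ℕ → K) (d : ℕ) : ∀ i,
    rho θ d i = ∑ j ∈ Finset.range (i + 1), cf θ d i j • tau θ j
  | 0 => by simp [rho, tau, cf]
  | (i + 1) => by
    rw [rho_succ, rho_expand θ d i, Finset.sum_mul]
    have h1 : ∀ j, cf θ d i j • tau θ j * (X - C (θ (d - i))) =
        cf θ d i j • tau θ (j + 1) + ((θ j - θ (d - i)) * cf θ d i j) • tau θ j := by
      intro j
      rw [tau_succ, smul_eq_C_mul, smul_eq_C_mul, smul_eq_C_mul, C_mul, C_sub]
      ring
    simp_rw [h1]
    rw [Finset.sum_add_distrib]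
    have h2 : ∑ j ∈ Finset.range (i + 1), ((θ j - θ (d - i)) * cf θ d i j) • tau θ j =
        ∑ j ∈ Finset.range (i + 2), ((θ j - θ (d - i)) * cf θ d i j) • tau θ j := by
      rw [Finset.sum_range_succ _ (i + 1), cf_zero θ d i (i + 1) (by omega)]
      simp
    rw [h2, Finset.sum_range_succ' _ (i + 1), Finset.sum_range_succ' _ (i + 1), ← add_assoc,
      ← Finset.sum_add_distrib]
    congr 1
    refine Finset.sum_congr rfl fun j _ => ?_
    rw [cf, add_smul]

theorem tau_monic (θ : ℕ → K) (i : ℕ) : (tau θ i).Monic :=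
  monic_prod_of_monic _ _ fun _ _ => monic_X_sub_C _

theorem tau_natDegree (θ : ℕ → K) (i : ℕ) : (tau θ i).natDegree = i := by
  rw [tau, natDegree_prod_of_monic _ _ fun _ _ => monic_X_sub_C _]
  simp

/-- the `τ_i` as a polynomial sequence -/
noncomputable def tauSeq (θ : ℕ → K) : Polynomial.Sequence K where
  elems' := tau θ
  degree_eq' i := by
    rw [degree_eq_natDegree (tau_monic θ i).ne_zero, tau_natDegree]

theorem unitLead (θ : ℕ → K) (i : ℕ) : IsUnit ((tauSeq θ i).leadingCoeff) := by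
  have : (tauSeq θ i).leadingCoeff = 1 := tau_monic θ i
  rw [this]
  exact isUnit_one

/-- the lowering map on all polynomials -/
noncomputable def Lmap (θ : ℕ → K) (d : ℕ) : K[X] →ₗ[K] K[X] :=
  ((tauSeq θ).basis (unitLead θ)).constr K fun j => D θ d j • tau θ (j - 1)

theorem Lmap_tau (θ : ℕ → K) (d j : ℕ) : Lmap θ d (tau θ j) = D θ d j • tau θ (j - 1) := by
  have h : ((tauSeq θ).basis (unitLead θ)) j = tau θ j :=
    Polynomial.Sequence.basis_eq_self _ _ _
  rw [← h, Lmap, Module.Basis.constr_basis]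

theorem Lmap_mem (θ : ℕ → K) (d : ℕ) {p : K[X]} (hp : p ∈ degreeLE K d) :
    Lmap θ d p ∈ degreeLE K d := by
  have hspan := (tauSeq θ).span_degreeLE (m := d) fun i _ => unitLead θ i
  rw [← hspan] at hp
  induction hp using Submodule.span_induction with
  | mem x hx =>
    obtain ⟨i, hi, rfl⟩ := hx
    have : Lmap θ d (tauSeq θ i) = D θ d i • tau θ (i - 1) := Lmap_tau θ d i
    rw [this]
    apply Submodule.smul_mem
    rw [mem_degreeLE]
    have hdeg : (tau θ (i - 1)).degree = ((i - 1 : ℕ) : WithBot ℕ) := (tauSeq θ).degree_eq (i - 1)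
    rw [hdeg]
    have : i ≤ d := hi
    exact_mod_cast (show i - 1 ≤ d by omega)
  | zero => rw [map_zero]; exact Submodule.zero_mem _
  | add x y _ _ hx hy => rw [map_add]; exact Submodule.add_mem _ hx hy
  | smul c x _ hx => rw [map_smul]; exact Submodule.smul_mem _ _ hx

theorem Lmap_rho (a b c β : K) {d i : ℕ} (hi : i + 1 ≤ d) :
    Lmap (sq a b c β) d (rho (sq a b c β) d (i + 1)) =
      D (sq a b c β) d (i + 1) • rho (sq a b c β) d i := by
  set θ := sq a b c β with hθ
  rw [rho_expand θ d (i + 1), rho_expand θ d i, map_sum, Finset.sum_range_succ']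
  simp_rw [map_smul, Lmap_tau]
  have h0 : D θ d 0 = 0 := by simp [D]
  rw [h0, zero_smul, smul_zero, add_zero, Finset.smul_sum]
  refine Finset.sum_congr rfl fun j _ => ?_
  rw [smul_smul, smul_smul, Nat.add_sub_cancel, special a b c β hi]

/-- For pairwise distinct `θ_0, …, θ_d` satisfying the condition (*) there is a nonzero lowering
map. -/
theorem result {K : Type*} [Field K] (d : ℕ) (hd : 1 ≤ d) (θ : ℕ → K)
    (hinj : ∀ i j, i ≤ d → j ≤ d → θ i = θ j → i = j)
    (hstar : ∀ i j, 2 ≤ i → i + 1 ≤ d → 2 ≤ j → j + 1 ≤ d →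
      (θ (i - 2) - θ (i + 1)) * (θ (i - 1) - θ i)⁻¹ =
        (θ (j - 2) - θ (j + 1)) * (θ (j - 1) - θ j)⁻¹) :
    ∃ Ψ : degreeLE K d →ₗ[K] degreeLE K d, IsLowering θ d Ψ ∧ Ψ ≠ 0 := by
  -- the parameter β
  set β : K := (θ 0 - θ 3) * (θ 1 - θ 2)⁻¹ - 1 with hβ
  have hrec : ∀ i ≤ d, θ i = sq (θ 0) (θ 1) (θ 2) β i := by
    intro i
    induction i using Nat.strong_induction_on with
    | _ i ih =>
      intro hi
      rcases i with _ | _ | _ | i
      · rfl
      · rfl
      · rfl
      · have h3 := hstar 2 (i + 2) le_rfl (by omega) (by omega) (by omega)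
        have e1 : i + 2 - 2 = i := by omega
        have e2 : i + 2 - 1 = i + 1 := by omega
        simp only [e1, e2] at h3
        have hne : θ (i + 1) - θ (i + 2) ≠ 0 := by
          intro h
          have := hinj (i + 1) (i + 2) (by omega) (by omega) (sub_eq_zero.mp h)
          omega
        have h4 : (β + 1) * (θ (i + 1) - θ (i + 2)) = θ i - θ (i + 2 + 1) := by
          have : β + 1 = (θ i - θ (i + 2 + 1)) * (θ (i + 1) - θ (i + 2))⁻¹ := by
            rw [← h3, hβ]
            simp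
          rw [this, mul_assoc, inv_mul_cancel₀ hne, mul_one]
        have h5 := ih i (by omega) (by omega)
        have h6 := ih (i + 1) (by omega) (by omega)
        have h7 := ih (i + 2) (by omega) (by omega)
        show θ (i + 3) = sq (θ 0) (θ 1) (θ 2) β i + (β + 1) *
          (sq (θ 0) (θ 1) (θ 2) β (i + 2) - sq (θ 0) (θ 1) (θ 2) β (i + 1))
        rw [← h5, ← h6, ← h7]
        have e3 : i + 2 + 1 = i + 3 := rfl
        rw [e3] at h4
        linear_combination h4
  set η := sq (θ 0) (θ 1) (θ 2) β with hη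
  refine ⟨(Lmap η d).restrict (p := degreeLE K d) (q := degreeLE K d)
    (fun p hp => Lmap_mem η d hp), ⟨?_, ?_, ?_, ?_⟩, ?_⟩
  · intro p hp
    apply Subtype.ext
    show Lmap η d p = 0
    rw [hp, tau_congr hrec (Nat.zero_le d), Lmap_tau]
    simp [D]
  · intro p hp
    apply Subtype.ext
    show Lmap η d p = 0
    have : rho θ d 0 = tau η 0 := by simp [rho, tau]
    rw [hp, this, Lmap_tau]
    simp [D]
  · intro i h1 h2 p hp
    show Lmap η d p ∈ _
    rw [hp, tau_congr hrec h2, Lmap_tau, tau_congr hrec (show i - 1 ≤ d by omega)]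
    exact Submodule.smul_mem _ _ (Submodule.mem_span_singleton_self _)
  · intro i h1 h2 p hp
    show Lmap η d p ∈ _
    obtain ⟨i, rfl⟩ : ∃ k, i = k + 1 := ⟨i - 1, by omega⟩
    rw [hp, rho_congr hrec (i + 1), rho_congr hrec (i + 1 - 1), Lmap_rho _ _ _ _ h2,
      Nat.add_sub_cancel]
    exact Submodule.smul_mem _ _ (Submodule.mem_span_singleton_self _)
  · intro h0
    have hmem : tau η 1 ∈ degreeLE K d := by
      rw [mem_degreeLE]
      have hdeg : (tau η 1).degree = ((1 : ℕ) : WithBot ℕ) := (tauSeq η).degree_eq 1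
      rw [hdeg]
      exact_mod_cast hd
    have h1 := congrArg Subtype.val (LinearMap.congr_fun h0 ⟨tau η 1, hmem⟩)
    have h2 : Lmap η d (tau η 1) = 0 := h1
    rw [Lmap_tau] at h2
    have h3 : D η d 1 = θ 0 - θ d := by
      rw [← D_congr hrec (by omega)]
      simp [D]
    have h4 : tau η 0 = 1 := by simp [tau]
    rw [h3, h4, smul_eq_zero] at h2
    rcases h2 with h2 | h2
    · have := hinj 0 d (Nat.zero_le d) le_rfl (sub_eq_zero.mp h2)
      omega
    · exact one_ne_zero h2

end final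

end Pool.Agent.Results.MP_87e037_al.LoweringMap
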